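import Mathlib

/-!
# A finite poset none of whose optimum interval partitions has a min-max block

Four diamonds `L₁, L₂, U₁, U₂` (each with a bottom `p`, two middle elements `s, t` and a top `q`)
are glued by `q(L₁) < q(U₁)`, `q(L₂) < q(U₂)`, `p(L₁) < p(U₂)`, `p(L₂) < p(U₁)`.  The four diamonds
form an interval partition with four blocks, while every interval partition with a block `[x, y]`,
`x` minimal and `y` maximal, has at least five blocks.
-/

set_option autoImplicit false

namespace Pool.Agent.Results.MP_2af528_co.NoMinMaxBlock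

/-- `P` is an interval partition of the poset `S`: every block is a nonempty interval
`[x, y] = {z | x ≤ z ≤ y}`, distinct blocks are disjoint, and the blocks cover `S`. -/
def IsIntervalPartition {S : Type} [PartialOrder S] (P : Finset (Set S)) : Prop :=
  (∀ b ∈ P, ∃ x y : S, x ≤ y ∧ b = Set.Icc x y) ∧
  (∀ b ∈ P, ∀ c ∈ P, b ≠ c → Disjoint b c) ∧
  (∀ z : S, ∃ b ∈ P, z ∈ b)

/-- `P` is an optimum interval partition: it has the least number of blocks. -/
def IsOptimum {S : Type} [PartialOrder S] (P : Finset (Set S)) : Prop :=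
  IsIntervalPartition P ∧ ∀ Q : Finset (Set S), IsIntervalPartition Q → P.card ≤ Q.card

/-- The elements: `L₁ = 0,1,2,3`, `L₂ = 4,5,6,7`, `U₁ = 8,9,10,11`, `U₂ = 12,13,14,15`,
each in the order `p, s, t, q`. -/
structure V where
  /-- the index -/
  val : Fin 16
deriving DecidableEq

/-- The up-sets, coded by binary digits: `b` lies above `a` iff the digit number `b` of `upTab a`
is one. -/
def upTab : Fin 16 → ℕ :=
  ![63503,
    2058,
    2060,
    2056,
    36848,
    32928,
    32960,
    32896,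
    3840,
    2560,
    3072,
    2048,
    61440,
    40960,
    49152,
    32768]

/-- The order relation on indices. -/
def leB (a b : Fin 16) : Bool := (upTab a).testBit b.val

theorem leB_refl : ∀ a, leB a a = true := by decide

set_option maxRecDepth 100000 in
theorem leB_trans : ∀ a b c, leB a b = true → leB b c = true → leB a c = true := by decide

theorem leB_antisymm : ∀ a b, leB a b = true → leB b a = true → a = b := by decide

instance : PartialOrder V where
  le a b := leB a.val b.val = true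
  le_refl a := leB_refl a.val
  le_trans a b c := leB_trans a.val b.val c.val
  le_antisymm a b h1 h2 := by
    have := leB_antisymm a.val b.val h1 h2
    cases a; cases b; simp_all

theorem le_iff (a b : V) : a ≤ b ↔ leB a.val b.val = true := Iff.rfl

instance : DecidableRel (fun a b : V => a ≤ b) := fun a b =>
  decidable_of_iff (leB a.val b.val = true) Iff.rfl

/-- Minimal elements are `0` and `4`. -/
theorem min_cases (x : V) (h : IsMin x) : x = ⟨0⟩ ∨ x = ⟨4⟩ := by
  have key : ∀ a : Fin 16, a = 0 ∨ a = 4 ∨ ∃ b : Fin 16, leB b a = true ∧ leB a b = false := by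
    decide
  rcases key x.val with h0 | h4 | ⟨b, hb, hb'⟩
  · left; cases x; simp_all
  · right; cases x; simp_all
  · have := h (show (⟨b⟩ : V) ≤ x from hb)
    rw [le_iff] at this
    simp_all

/-- Maximal elements are `11` and `15`. -/
theorem max_cases (x : V) (h : IsMax x) : x = ⟨11⟩ ∨ x = ⟨15⟩ := by
  have key : ∀ a : Fin 16, a = 11 ∨ a = 15 ∨ ∃ b : Fin 16, leB a b = true ∧ leB b a = false := by
    decide
  rcases key x.val with h0 | h4 | ⟨b, hb, hb'⟩
  · left; cases x; simp_all
  · right; cases x; simp_all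
  · have := h (show x ≤ (⟨b⟩ : V) from hb)
    rw [le_iff] at this
    simp_all

/-- The partition into four diamonds. -/
theorem four_blocks : ∃ Q : Finset (Set V), IsIntervalPartition Q ∧ Q.card ≤ 4 := by
  classical
  refine ⟨{Set.Icc ⟨0⟩ ⟨3⟩, Set.Icc ⟨4⟩ ⟨7⟩, Set.Icc ⟨8⟩ ⟨11⟩, Set.Icc ⟨12⟩ ⟨15⟩}, ⟨?_, ?_, ?_⟩,
    Finset.card_le_four⟩
  · intro b hb
    simp only [Finset.mem_insert, Finset.mem_singleton] at hb
    rcases hb with rfl | rfl | rfl | rfl
    · exact ⟨⟨0⟩, ⟨3⟩, by rw [le_iff]; decide, rfl⟩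
    · exact ⟨⟨4⟩, ⟨7⟩, by rw [le_iff]; decide, rfl⟩
    · exact ⟨⟨8⟩, ⟨11⟩, by rw [le_iff]; decide, rfl⟩
    · exact ⟨⟨12⟩, ⟨15⟩, by rw [le_iff]; decide, rfl⟩
  · have dis : ∀ a b c d : Fin 16,
        (∀ z : Fin 16, ¬ (leB a z = true ∧ leB z b = true ∧ leB c z = true ∧ leB z d = true)) →
        Disjoint (Set.Icc (⟨a⟩ : V) ⟨b⟩) (Set.Icc (⟨c⟩ : V) ⟨d⟩) := by
      intro a b c d h
      rw [Set.disjoint_left]
      rintro z ⟨h1, h2⟩ ⟨h3, h4⟩
      exact h z.val ⟨h1, h2, h3, h4⟩
    intro b hb c hc hbc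
    simp only [Finset.mem_insert, Finset.mem_singleton] at hb hc
    rcases hb with rfl | rfl | rfl | rfl <;> rcases hc with rfl | rfl | rfl | rfl <;>
      first
        | exact absurd rfl hbc
        | (apply dis; decide)
  · intro z
    have key : ∀ a : Fin 16, (leB 0 a = true ∧ leB a 3 = true) ∨ (leB 4 a = true ∧ leB a 7 = true) ∨
        (leB 8 a = true ∧ leB a 11 = true) ∨ (leB 12 a = true ∧ leB a 15 = true) := by decide
    rcases key z.val with h | h | h | h
    · exact ⟨Set.Icc ⟨0⟩ ⟨3⟩, by simp, h⟩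
    · exact ⟨Set.Icc ⟨4⟩ ⟨7⟩, by simp, h⟩
    · exact ⟨Set.Icc ⟨8⟩ ⟨11⟩, by simp, h⟩
    · exact ⟨Set.Icc ⟨12⟩ ⟨15⟩, by simp, h⟩

/-- If five elements `w, u₁, …, u₄` are such that `w ∈ X = [x, y]` and every interval containing
two of them meets `X` and is not `X`, then a partition with the block `X` has five blocks. -/
theorem five_blocks (x y : Fin 16) (u : Fin 4 → Fin 16)
    (h1 : ∀ i, ¬ (leB x (u i) = true ∧ leB (u i) y = true))
    (h2 : ∀ i j, i < j → ∀ a b : Fin 16, leB a (u i) = true → leB (u i) b = true →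
      leB a (u j) = true → leB (u j) b = true →
      ∃ z : Fin 16, leB x z = true ∧ leB z y = true ∧ leB a z = true ∧ leB z b = true)
    (P : Finset (Set V)) (hP : IsIntervalPartition P) (hX : Set.Icc (⟨x⟩ : V) ⟨y⟩ ∈ P) :
    5 ≤ P.card := by
  classical
  obtain ⟨hint, hdis, hcov⟩ := hP
  choose f hfP hfz using hcov
  -- the map `i ↦ block of u i` is injective into `P.erase X`
  have hne : ∀ i, f ⟨u i⟩ ≠ Set.Icc (⟨x⟩ : V) ⟨y⟩ := by
    intro i hi
    have := hfz ⟨u i⟩
    rw [hi] at this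
    exact h1 i this
  have hlt : ∀ i j, i < j → f ⟨u i⟩ ≠ f ⟨u j⟩ := by
    intro i j hij hff
    obtain ⟨a, b, -, hab⟩ := hint _ (hfP ⟨u i⟩)
    have hi := hfz ⟨u i⟩
    have hj := hfz ⟨u j⟩
    rw [← hff, hab] at hj
    rw [hab] at hi
    obtain ⟨z, z1, z2, z3, z4⟩ := h2 i j hij a.val b.val hi.1 hi.2 hj.1 hj.2
    have hd := hdis _ (hfP ⟨u i⟩) _ hX (hne i)
    rw [hab, Set.disjoint_left] at hd
    exact hd (show (⟨z⟩ : V) ∈ Set.Icc a b from ⟨z3, z4⟩) ⟨z1, z2⟩
  have hinj : Function.Injective (fun i : Fin 4 => f ⟨u i⟩) := by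
    intro i j hij
    rcases lt_trichotomy i j with h | h | h
    · exact absurd hij (hlt i j h)
    · exact h
    · exact absurd hij.symm (hlt j i h)
  have hsub : Finset.univ.image (fun i : Fin 4 => f ⟨u i⟩) ⊆
      P.erase (Set.Icc (⟨x⟩ : V) ⟨y⟩) := by
    intro c hc
    obtain ⟨i, -, rfl⟩ := Finset.mem_image.1 hc
    exact Finset.mem_erase.2 ⟨hne i, hfP _⟩
  have hcard := Finset.card_le_card hsub
  rw [Finset.card_image_of_injective _ hinj, Finset.card_erase_of_mem hX] at hcard
  have hpos : 0 < P.card := Finset.card_pos.2 ⟨_, hX⟩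
  simp only [Finset.card_univ, Fintype.card_fin] at hcard
  omega

/-- **Negative answer to Q1.**  Not every finite nonempty poset has an optimum interval partition
with a block `[x, y]`, `x` minimal, `y` maximal. -/
theorem result :
    ¬ ∀ (S : Type) [Finite S] [Nonempty S] [PartialOrder S],
      ∃ P : Finset (Set S), IsOptimum P ∧
        ∃ x y : S, IsMin x ∧ IsMax y ∧ x ≤ y ∧ Set.Icc x y ∈ P := by
  intro H
  have : Finite V := Finite.of_injective V.val (by rintro ⟨a⟩ ⟨b⟩ h; simp_all)
  have : Nonempty V := ⟨⟨0⟩⟩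
  obtain ⟨P, ⟨hP, hopt⟩, x, y, hx, hy, -, hX⟩ := H V
  obtain ⟨Q, hQ, hQ4⟩ := four_blocks
  have h4 : P.card ≤ 4 := (hopt Q hQ).trans hQ4
  have h5 : 5 ≤ P.card := by
    rcases min_cases x hx with rfl | rfl <;> rcases max_cases y hy with rfl | rfl
    · exact five_blocks 0 11 ![9, 10, 5, 13] (by decide) (by decide) P hP hX
    · exact five_blocks 0 15 ![1, 2, 5, 9] (by decide) (by decide) P hP hX
    · exact five_blocks 4 11 ![5, 6, 1, 13] (by decide) (by decide) P hP hX
    · exact five_blocks 4 15 ![13, 14, 1, 9] (by decide) (by decide) P hP hX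
  omega

end Pool.Agent.Results.MP_2af528_co.NoMinMaxBlock
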